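import Pool.Agent.Y444.UN.Defs2
import Pool.Agent.Y584.UN.Dom

/-!
# The additivity of the universally null ideal and the bounding number (UN2-BDD)

Author helper409, for project UN of helper444; the structure of the proof is that of the file
`Pool/Agent/Y584/UN/Dom.lean` of helper584.
-/

set_option autoImplicit false

open MeasureTheory Set Filter Topology Cardinal
open scoped ENNReal

namespace Pool.Agent.Y409.UN.Bdd

open Pool.Agent.Y444.UN Pool.Agent.Y584.UN.Dom

theorem bNum_attained : ∃ B : Set (ℕ → ℕ),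
    (∀ g : ℕ → ℕ, ∃ f ∈ B, ∃ᶠ n in atTop, g n < f n) ∧ #B = bNum := by
  have h1 : {c | ∃ B : Set (ℕ → ℕ), (∀ g : ℕ → ℕ, ∃ f ∈ B, ∃ᶠ n in atTop, g n < f n) ∧
      #B = c}.Nonempty :=
    ⟨_, univ, fun g => ⟨fun n => g n + 1, mem_univ _,
      (Eventually.of_forall fun n => Nat.lt_succ_self (g n)).frequently⟩, rfl⟩
  exact csInf_mem h1

theorem aleph0_le' {B : Set (ℕ → ℕ)}
    (h : ∀ g : ℕ → ℕ, ∃ f ∈ B, ∃ᶠ n in atTop, g n < f n) : ℵ₀ ≤ #B := by
  by_contra hcon
  have hfin : B.Finite := Cardinal.lt_aleph0_iff_set_finite.1 (not_le.1 hcon)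
  obtain ⟨f, hf, hf'⟩ := h (fun n => 1 + ∑ f ∈ hfin.toFinset, f n)
  obtain ⟨n, hn⟩ := hf'.exists
  have h1 : f n ≤ ∑ f ∈ hfin.toFinset, f n :=
    Finset.single_le_sum (f := fun f : ℕ → ℕ => f n) (fun _ _ => Nat.zero_le _)
      (hfin.mem_toFinset.2 hf)
  omega

/-- the decoding function -/
noncomputable def dec (f : ℕ → ℕ) (x : Om) : ℕ → Bool := by
  classical
  exact fun j => decide (∀ᶠ n in atTop, Spec f n x → x (n, f n, n + j) = true)

theorem measurableSet_Spec (f : ℕ → ℕ) (n : ℕ) : MeasurableSet {x : Om | Spec f n x} := by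
  have : {x : Om | Spec f n x} = ⋂ j : ℕ, ⋂ (_ : j < n),
      (fun x : Om => x (n, f n, j)) ⁻¹' {false} := by
    ext x
    simp only [mem_iInter, mem_preimage, mem_singleton_iff]
    rfl
  rw [this]
  exact MeasurableSet.iInter fun j => MeasurableSet.iInter fun _ =>
    measurable_pi_apply _ (measurableSet_singleton _)

theorem measurable_dec (f : ℕ → ℕ) : Measurable (dec f) := by
  classical
  rw [measurable_pi_iff]
  intro j
  have hset : MeasurableSet {x : Om | ∀ᶠ n in atTop, Spec f n x → x (n, f n, n + j) = true} := by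
    have : {x : Om | ∀ᶠ n in atTop, Spec f n x → x (n, f n, n + j) = true} =
        ⋃ a : ℕ, ⋂ n : ℕ, ⋂ (_ : a ≤ n),
          ({x : Om | Spec f n x}ᶜ ∪ (fun x : Om => x (n, f n, n + j)) ⁻¹' {true}) := by
      ext x
      simp only [mem_ofPred_eq, eventually_atTop, mem_iUnion, mem_iInter, mem_union, mem_compl_iff,
        mem_preimage, mem_singleton_iff]
      constructor
      · rintro ⟨a, ha⟩
        exact ⟨a, fun n hn => by
          by_cases hs : Spec f n x
          · exact Or.inr (ha n hn hs)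
          · exact Or.inl hs⟩
      · rintro ⟨a, ha⟩
        exact ⟨a, fun n hn hs => (ha n hn).resolve_left (fun h => h hs)⟩
    rw [this]
    refine MeasurableSet.iUnion fun a => MeasurableSet.iInter fun n => MeasurableSet.iInter fun _ => ?_
    exact (measurableSet_Spec f n).compl.union
      (measurable_pi_apply _ (measurableSet_singleton _))
  have : (fun x => dec f x j) = fun x =>
      decide (x ∈ {x : Om | ∀ᶠ n in atTop, Spec f n x → x (n, f n, n + j) = true}) := by
    funext x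
    unfold dec
    simp
  rw [this]
  refine measurable_to_bool ?_
  have h2 : (fun x => decide (x ∈ {x : Om | ∀ᶠ n in atTop, Spec f n x →
      x (n, f n, n + j) = true})) ⁻¹' {true} =
      {x : Om | ∀ᶠ n in atTop, Spec f n x → x (n, f n, n + j) = true} := by
    ext x; simp
  rw [h2]; exact hset

theorem dec_eq {f : ℕ → ℕ} {x : Om} {z : ℕ → Bool} (h : Dec f x z) : dec f x = z := by
  classical
  funext j
  unfold dec
  obtain ⟨h1, h2⟩ := h
  cases hz : z j with
  | true =>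
    rw [decide_eq_true_iff]
    filter_upwards [h2, eventually_gt_atTop j] with n hn hj hs
    rw [hn hs j hj, hz]
  | false =>
    rw [decide_eq_false_iff_not]
    intro hev
    obtain ⟨n, hs, ⟨hn, hc⟩, hj⟩ :=
      (h1.and_eventually ((hev.and h2).and (eventually_gt_atTop j))).exists
    have e1 := hn hs
    have e2 := hc hs j hj
    rw [hz] at e2
    rw [e1] at e2
    exact Bool.noConfusion e2

theorem dec_wr {f : ℕ → ℕ} {A : Set ℕ} {y : Om} {z : ℕ → Bool} (hA : A.Infinite)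
    (hy : ¬ ∃ᶠ n in atTop, Spec f n y) : Dec f (wr f A y (pat z)) z := by
  have h1 : ∀ n ∈ A, Spec f n (wr f A y (pat z)) := by
    intro n hn j hj
    unfold wr
    rw [if_pos ⟨hn, rfl, by simp only; omega⟩]
    unfold pat
    rw [if_pos (by simpa using hj)]
  have h2 : ∀ n ∈ A, Code f z n (wr f A y (pat z)) := by
    intro n hn j hj
    unfold wr
    rw [if_pos ⟨hn, rfl, by simp only; omega⟩]
    unfold pat
    rw [if_neg (by simp)]
    simp
  have h3 : ∀ n, n ∉ A → Spec f n (wr f A y (pat z)) → Spec f n y := by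
    intro n hn h j hj
    have h4 := h j hj
    unfold wr at h4
    rwa [if_neg (fun h5 => hn h5.1)] at h4
  constructor
  · exact (Nat.frequently_atTop_iff_infinite.2 hA).mono fun n hn => h1 n hn
  · rw [not_frequently] at hy
    filter_upwards [hy] with n hn hs
    by_cases hnA : n ∈ A
    · exact h2 n hnA
    · exact absurd (h3 n hnA hs) hn

/-- **the additivity is at most the bounding number if there is a large universally null set** -/
theorem t : IndStm → InjStm → GrzStm → NonEqStm → NonOmStm → Rob2Stm → HitStm → NspStm →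
    BddStm := by
  rintro ⟨hP, hPa, -, -⟩ hI ⟨Z0, hZ0, hZ0c⟩ hNE ⟨E, hE, hEc⟩ hRob hHit hNsp Z1 hZ1 hZ1c
  obtain ⟨D, hD, hDc⟩ := dNum_attained
  obtain ⟨B, hB, hBc⟩ := bNum_attained
  have hD0 := aleph0_le hD
  have hB0 := aleph0_le' hB
  have hnR : ¬ Countable ℝ := fun h => not_countable h
  let b := PolishSpace.measurableEquivOfNotCountable not_countable_Om hnR
  let c := PolishSpace.measurableEquivOfNotCountable not_countable_Ca hnR
  obtain ⟨Z, hZdef⟩ : ∃ Z, Z = Z0 ∪ Z1 := ⟨_, rfl⟩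
  have hZ : IsUN Z := by
    intro μ h1 h2
    rw [hZdef]
    exact measure_union_null (hZ0 μ h1 h2) (hZ1 μ h1 h2)
  have hEZ : #E ≤ #Z := by
    rw [hEc, ← hNE, ← hZ0c, hZdef]
    exact mk_le_mk_of_subset subset_union_left
  have hDZ : #D ≤ #Z := by
    rw [hDc]
    refine hZ1c.trans ?_
    rw [hZdef]
    exact mk_le_mk_of_subset subset_union_right
  have hEDZ : #(E × D) ≤ #Z := by
    rw [mk_prod, lift_id, lift_id]
    calc #E * #D ≤ #Z * #Z := mul_le_mul' hEZ hDZ
      _ = #Z := mul_eq_self (hD0.trans hDZ)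
  obtain ⟨ι⟩ := (Cardinal.le_def _ _).1 hEDZ
  let z : E × D → (ℕ → Bool) := fun e => c.symm (ι e)
  have hz : Function.Injective z := fun e e' h =>
    ι.injective (Subtype.ext (c.symm.injective h))
  have hcz : ∀ e, c (z e) ∈ Z := by
    intro e
    change c (c.symm (ι e)) ∈ Z
    rw [c.apply_symm_apply]
    exact (ι e).2
  -- the sets
  let S : (ℕ → ℕ) → (ℕ → ℕ) → ℕ → Set ℕ := fun f d m => {n | m ≤ n ∧ d n ≤ f n}
  let X : B × ℕ × Finset Idx → Set Om := fun i => {x | ∃ (e : E) (d : D),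
    (S i.1.1 d.1 i.2.1).Infinite ∧
    (¬ ∃ᶠ n in atTop, Spec i.1.1 n (Pool.Agent.Y444.UN.flip i.2.2 e)) ∧
    x = wr i.1.1 (S i.1.1 d.1 i.2.1) (Pool.Agent.Y444.UN.flip i.2.2 e) (pat (z (e, d)))}
  have hX : ∀ i, UNull (X i) := by
    intro i
    apply hI _ _ (dec i.1.1) _ (measurable_dec _)
    · rintro x ⟨e, d, h1, h2, rfl⟩ x' ⟨e', d', h1', h2', rfl⟩ h
      rw [dec_eq (dec_wr h1 h2), dec_eq (dec_wr h1' h2')] at h
      have := hz h
      rw [Prod.mk.injEq] at this
      obtain ⟨h3, h4⟩ := this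
      subst h3
      subst h4
      rfl
    · intro μ hμ hμa
      have hsub : dec i.1.1 '' X i ⊆ c ⁻¹' Z := by
        rintro _ ⟨_, ⟨e, d, h1, h2, rfl⟩, rfl⟩
        rw [mem_preimage, dec_eq (dec_wr h1 h2)]
        exact hcz _
      refine measure_mono_null hsub ?_
      rw [← c.map_apply]
      obtain ⟨h1, h2⟩ := map_symm c μ hμ hμa
      exact hZ _ h1 h2
  have hbX : ∀ i, IsUN (b '' X i) := by
    intro i ν hν hνa
    have h1 : b '' X i = b.symm ⁻¹' X i := b.image_eq_preimage_symm _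
    rw [h1, ← b.symm.map_apply]
    obtain ⟨h2, h3⟩ := map_symm b.symm ν hν hνa
    exact hX i _ h2 h3
  -- the union
  have hUn : P (⋃ i, X i) ≠ 0 := by
    intro h0
    have h1 : P (⋃ i, X i) < 1 := by rw [h0]; exact one_pos
    obtain ⟨U, hU, hUo, hU1⟩ := (⋃ i, X i).exists_isOpen_lt_of_lt 1 h1
    have hK : P Uᶜ ≠ 0 := by
      rw [prob_compl_eq_one_sub hUo.measurableSet]
      exact (tsub_pos_iff_lt.2 hU1).ne'
    obtain ⟨φ, hφ⟩ := hRob Uᶜ hUo.isClosed_compl hK
    obtain ⟨d, hd, hd'⟩ := hD φ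
    obtain ⟨m, hm⟩ := eventually_atTop.1 hd'
    obtain ⟨f, hf, hf'⟩ := hB d
    have hSinf : (S f d m).Infinite := by
      rw [← Nat.frequently_atTop_iff_infinite]
      refine (hf'.and_eventually (eventually_ge_atTop m)).mono ?_
      rintro n ⟨h2, h3⟩
      exact ⟨h3, h2.le⟩
    obtain ⟨R, hRm, hR0, hR⟩ := hφ f (S f d m) fun n hn => (hm n hn.1).trans hn.2
    obtain ⟨hNm, hN0⟩ := hNsp f
    have hR1 : P (R \ {x | ∃ᶠ n in atTop, Spec f n x}) ≠ 0 := by
      rw [measure_sdiff_null hN0]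
      exact hR0
    obtain ⟨F, e, he, heR⟩ := hHit E _ hE (hRm.diff hNm) hR1
    have h2 := hR _ heR.1 (pat (z (⟨e, he⟩, ⟨d, hd⟩)))
    apply h2
    apply hU
    rw [mem_iUnion]
    exact ⟨⟨⟨f, hf⟩, m, F⟩, ⟨e, he⟩, ⟨d, hd⟩, hSinf, heR.2, rfl⟩
  -- the family
  have hfam : #(range fun i => b '' X i) ∈ {c | ∃ F : Set (Set ℝ), (∀ X ∈ F, IsUN X) ∧
      ¬ IsUN (⋃₀ F) ∧ #F = c} := by
    refine ⟨_, ?_, ?_, rfl⟩
    · rintro _ ⟨i, rfl⟩
      exact hbX i
    · intro h
      obtain ⟨h1, h2⟩ := map_symm b P hP hPa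
      have h3 := h _ h1 h2
      rw [b.map_apply] at h3
      apply hUn
      refine measure_mono_null ?_ h3
      intro x hx
      obtain ⟨i, hi⟩ := mem_iUnion.1 hx
      rw [mem_preimage]
      exact ⟨_, ⟨i, rfl⟩, x, hi, rfl⟩
  have hle : addOf IsUN ≤ #(range fun i => b '' X i) := csInf_le' hfam
  refine hle.trans (mk_range_le.trans ?_)
  rw [← hBc, mk_prod, mk_prod, lift_id, lift_id, lift_id, lift_id]
  have h1 : #ℕ * #(Finset Idx) ≤ ℵ₀ := by
    rw [mk_nat]
    have h2 : #(Finset Idx) ≤ ℵ₀ := mk_le_aleph0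
    exact (mul_le_mul' le_rfl h2).trans (le_of_eq aleph0_mul_aleph0)
  calc #B * (#ℕ * #(Finset Idx)) ≤ #B * ℵ₀ := mul_le_mul' le_rfl h1
    _ = #B := mul_aleph0_eq hB0
    _ ≤ #B := le_rfl

end Pool.Agent.Y409.UN.Bdd
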